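import Pool.Agent.QUD.StmtsL
import Pool.Agent.Helper5_PM.M135

/-!
Squad QUD (MP_5b0138_an), row DN1: the area of the inner parallel body near the first level.
-/

set_option autoImplicit false

namespace Pool.Agent.QUD.H27

open MeasureTheory Complex Filter Topology ProbabilityTheory Pool.Agent.H16Iso Pool.Agent.H62T
open Pool.Agent.H16F (Sublin ind)
open Pool.Agent.AEU Pool.Agent.XQ Pool.Agent.AEU.H35

lemma rlx_empty (X : Finset HP) (c : Finset HP → HP → ℝ) (S : Finset HP) :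
    rlx X ∅ c S = X := by
  classical
  unfold rlx er
  simp

lemma dx_eq {X : Finset HP} {L δ : ℝ} {N : Finset (Finset HP)} {c : Finset HP → HP → ℝ}
    {K : Finset HP → ℂ → ℝ} (hX : Pg X) (hp : Part X L δ ∅ N ∅ c K) {h : ℂ → ℝ}
    (hs : Sublin h) (hl : lam h < L + δ) :
    DX X ∅ c (∅ ∪ N) h = ∑ S ∈ N, Zs S h := by
  classical
  unfold DX
  rw [Finset.empty_union, Finset.sum_empty, add_zero]
  refine Finset.sum_congr rfl fun S hS => ?_
  have hT : Tr S := XQ.H27D.tr_of hX (hp.sN hS) (hp.nN S hS)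
  rw [propext (hp.loc S hS h hs hl)]
  by_cases hz : Zs S h = 0
  · rw [hz, mul_zero]
  · rw [H16F.H10.ind_pos (evL_of_Zs hT hz), one_mul]

theorem dn1 (gnx : GnxStatement) (fcd : FcdStatement) : Dn1Stmt := by
  classical
  intro X q L δ N c K hL0 hδ0 hX hq hp
  obtain ⟨δ', m, C, hδ', hδ'δ, hm, hfc⟩ := fcd X q L δ _ N ∅ c K hL0 hδ0 hX hq hp
  refine ⟨δ', m, C, hδ', hδ'δ, hm, fun h hh hl => ?_⟩
  obtain ⟨k, hk, -, hks, hkg⟩ := gnx X hX (L / 8) (by linarith)
  have hf : ∀ w, Tendsto (fun η : ℝ => (1 - η) * h w + η * k w) (𝓝[>] (0 : ℝ)) (𝓝 (h w)) := by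
    intro w
    have h1 : Continuous fun η : ℝ => (1 - η) * h w + η * k w := by fun_prop
    have h2 := h1.tendsto 0
    simp only [sub_zero, one_mul, zero_mul, add_zero] at h2
    exact h2.mono_left nhdsWithin_le_nhds
  have hlam : Tendsto (fun η : ℝ => lam fun w => (1 - η) * h w + η * k w) (𝓝[>] (0 : ℝ))
      (𝓝 (lam h)) := by
    have e : (fun η : ℝ => lam fun w => (1 - η) * h w + η * k w)
        = fun η : ℝ => (1 - η) * lam h + η * lam k := by
      funext η
      exact H69.lam_mix hh hk η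
    rw [e]
    have h1 : Continuous fun η : ℝ => (1 - η) * lam h + η * lam k := by fun_prop
    have h2 := h1.tendsto 0
    simp only [sub_zero, one_mul, zero_mul, add_zero] at h2
    exact h2.mono_left nhdsWithin_le_nhds
  have h01 : ∀ᶠ η in 𝓝[>] (0 : ℝ), 0 < η ∧ η < 1 := by
    filter_upwards [self_mem_nhdsWithin, mem_nhdsWithin_of_mem_nhds (gt_mem_nhds zero_lt_one)]
      with η a1 a2
    exact ⟨a1, a2⟩
  have hev : ∀ᶠ η in 𝓝[>] (0 : ℝ), Sublin (fun w => (1 - η) * h w + η * k w) ∧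
      lam (fun w => (1 - η) * h w + η * k w) < L + δ' := by
    filter_upwards [h01, hlam.eventually (gt_mem_nhds hl)] with η a1 a2
    exact ⟨H69.sub_mix hh hk a1.1.le a1.2.le, a2⟩
  have tV := XQ.H27D.vx_tendsto hX hf
  have tq := XQ.H27D.q_tendsto hq hf
  have tD : Tendsto (fun η : ℝ => DX X ∅ c (∅ ∪ N) fun w => (1 - η) * h w + η * k w)
      (𝓝[>] (0 : ℝ)) (𝓝 (∑ S ∈ N, Zs S h)) := by
    have h1 : Tendsto (fun η : ℝ => ∑ S ∈ N, Zs S fun w => (1 - η) * h w + η * k w)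
        (𝓝[>] (0 : ℝ)) (𝓝 (∑ S ∈ N, Zs S h)) :=
      tendsto_finsetSum _ fun S _ => XQ.H27D.zs_tendsto hf S
    refine h1.congr' ?_
    filter_upwards [hev] with η a1
    exact (dx_eq hX hp a1.1 (by linarith [a1.2])).symm
  constructor
  · intro hw
    refine tendsto_nhds_unique tV ((tq.add tD).congr' ?_)
    filter_upwards [h01, hev, hkg h] with η a1 a2 a3
    refine ((hfc _ a2.1 a2.2 a3).1 ?_).symm
    intro a a' haa
    have b1 := hw a a' haa
    have b2 := (le_abs_self _).trans_lt (hks a haa.mem)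
    have b3 := (le_abs_self _).trans_lt (hks a' haa.mem')
    have c1 : (1 - η) * (h a.1 + h a'.1) ≤ (1 - η) * (L / 2) :=
      mul_le_mul_of_nonneg_left b1 (by linarith [a1.2])
    have c2 : η * (k a.1 + k a'.1) < η * (L / 2) :=
      mul_lt_mul_of_pos_left (by linarith) a1.1
    calc (1 - η) * h a.1 + η * k a.1 + ((1 - η) * h a'.1 + η * k a'.1)
        = (1 - η) * (h a.1 + h a'.1) + η * (k a.1 + k a'.1) := by ring
      _ < (1 - η) * (L / 2) + η * (L / 2) := add_lt_add_of_le_of_lt c1 c2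
      _ = L / 2 := by ring
  · intro a a' haa hw
    have tw : Tendsto (fun η : ℝ => (1 - η) * h a.1 + η * k a.1 + ((1 - η) * h a'.1 + η * k a'.1))
        (𝓝[>] (0 : ℝ)) (𝓝 (h a.1 + h a'.1)) := (hf a.1).add (hf a'.1)
    have t1 := ((tw.sub_const (L / 2)).const_mul m).sub
      (((tw.sub_const (L / 2)).pow 2).const_mul C)
    refine le_of_tendsto_of_tendsto t1 ((tV.sub tq).sub tD) ?_
    filter_upwards [hev, hkg h, tw.eventually (lt_mem_nhds hw)] with η a2 a3 a4
    exact (hfc _ a2.1 a2.2 a3).2 a a' haa a4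

end Pool.Agent.QUD.H27
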