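import Pool.Agent.QUD.StmtsRB

/-!
Squad QUD (MP_5b0138_an), row HPL: a convex quadrilateral as an intersection of half-planes.
-/

set_option autoImplicit false

namespace Pool.Agent.QUD.H27

open MeasureTheory Complex Filter Topology Pool.Agent.H16Iso Pool.Agent.H62T
open Pool.Agent.AEU Pool.Agent.XQ
open Pool.Agent.H1Gen (det CCW poly)

/-- one side: `p`, `q` on the line `s`, the point `r` inside, counterclockwise -/
lemma side_iff {s : HP} {p q r : ℂ} (hu : ‖s.1‖ = 1) (hp : ip s.1 p = s.2) (hq : ip s.1 q = s.2)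
    (hr : ip s.1 r ≤ s.2) (hd : 0 < det (q - p) (r - p)) (x : ℂ) :
    ip s.1 x < s.2 ↔ 0 < det (q - p) (x - p) := by
  have h1 : s.1.re * s.1.re + s.1.im * s.1.im = 1 := by
    have := Complex.normSq_apply s.1
    rw [Complex.normSq_eq_norm_sq, hu] at this
    linarith
  obtain ⟨t, ht⟩ : ∃ t : ℝ, t = s.1.re * (q - p).im - s.1.im * (q - p).re := ⟨_, rfl⟩
  have h0 : s.1.re * (q - p).re + s.1.im * (q - p).im = 0 := by
    unfold ip at hp hq
    simp only [Complex.sub_re, Complex.sub_im]
    linarith
  have hre : (q - p).re = -t * s.1.im := by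
    rw [ht]
    linear_combination (-(q - p).re) * h1 + s.1.re * h0
  have him : (q - p).im = t * s.1.re := by
    rw [ht]
    linear_combination (-(q - p).im) * h1 + s.1.im * h0
  have key : ∀ y : ℂ, det (q - p) (y - p) = t * (s.2 - ip s.1 y) := by
    intro y
    unfold det
    rw [hre, him, ← hp]
    unfold ip
    simp only [Complex.sub_re, Complex.sub_im]
    ring
  rw [key] at hd ⊢
  have ht0 : 0 < t := by
    by_contra hcon
    have : t * (s.2 - ip s.1 r) ≤ 0 :=
      mul_nonpos_of_nonpos_of_nonneg (not_lt.1 hcon) (by linarith)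
    linarith
  constructor
  · intro h
    exact mul_pos ht0 (by linarith)
  · intro h
    have := (mul_pos_iff_of_pos_left ht0).1 h
    linarith

theorem hpl (cyc : CycStmt) : HplStmt := by
  intro z hz
  obtain ⟨a, b, c, d, h, ho, e0, e1, e2, e3⟩ := cyc z hz
  have hda := h.vda
  have hab := h.vab
  have hbc := h.vbc
  have hcd := h.vcd
  rw [e0] at hda
  rw [e1] at hab
  rw [e2] at hbc
  rw [e3] at hcd
  have d01 : 0 < det (z 1 - z 0) (z 2 - z 0) := hz 0 1 2 (by decide) (by decide)
  have d12 : 0 < det (z 2 - z 1) (z 3 - z 1) := hz 1 2 3 (by decide) (by decide)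
  have d23 : 0 < det (z 3 - z 2) (z 0 - z 2) := by
    have := hz 0 2 3 (by decide) (by decide)
    unfold det at this ⊢
    simp only [Complex.sub_re, Complex.sub_im] at this ⊢
    linarith
  have d30 : 0 < det (z 0 - z 3) (z 1 - z 3) := by
    have := hz 0 1 3 (by decide) (by decide)
    unfold det at this ⊢
    simp only [Complex.sub_re, Complex.sub_im] at this ⊢
    linarith
  have ha := h.pg.unit a (by simp)
  have hb := h.pg.unit b (by simp)
  have hc := h.pg.unit c (by simp)
  have hd := h.pg.unit d (by simp)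
  rw [← ho]
  ext x
  have s0 := side_iff ha hda.on₂ hab.on₁ (hbc.cl a (by simp)) d01 x
  have s1 := side_iff hb hab.on₂ hbc.on₁ (hcd.cl b (by simp)) d12 x
  have s2 := side_iff hc hbc.on₂ hcd.on₁ (hda.cl c (by simp)) d23 x
  have s3 := side_iff hd hcd.on₂ hda.on₁ (hab.cl d (by simp)) d30 x
  constructor
  · intro hx i
    fin_cases i
    · exact s0.1 (hx a (by simp))
    · exact s1.1 (hx b (by simp))
    · exact s2.1 (hx c (by simp))
    · exact s3.1 (hx d (by simp))
  · intro hx s hs
    simp only [Finset.mem_insert, Finset.mem_singleton] at hs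
    rcases hs with rfl | rfl | rfl | rfl
    · exact s0.2 (hx 0)
    · exact s1.2 (hx 1)
    · exact s2.2 (hx 2)
    · exact s3.2 (hx 3)

end Pool.Agent.QUD.H27
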