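import Pool.Agent.QUD.StmtsY

/-!
Squad QUD (MP_5b0138_an), row ITB: the side which belongs to an item of the type B or H.
-/

set_option autoImplicit false

namespace Pool.Agent.QUD.H27

open MeasureTheory Complex Filter Topology ProbabilityTheory Pool.Agent.H16Iso Pool.Agent.H62T
open Pool.Agent.AEU Pool.Agent.XQ Pool.Agent.QUD

theorem itb_ipc (x y : ℂ) : ip x y = ip y x := by
  unfold ip
  ring

theorem itb (nck : NckStmt) (vxx : VxxStatement) : ItbStmt := by
  intro X L B H hX hL hBel hB hH α f hα hα' hib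
  rcases hib with ⟨rfl, hm⟩ | ⟨hf0, hf1, q, hq, rfl, hqf⟩
  · obtain ⟨-, -, i, j, k, v, w, h1, h2, h3, h4, h5, h6⟩ := hH α hm
    refine ⟨i, j, k, v, w, h1, h2, h3, h4, ?_, ?_⟩
    · rw [sub_zero, Real.cos_pi_div_two, neg_zero, h5]
    · rw [Real.cos_zero, div_one]
      linarith
  · obtain ⟨-, -, i, j, q', v, h1, h2, h3, h4, h5, h6, h7, h8, h9⟩ := hB q hq
    have hf2 : f < Real.pi / 2 := by linarith
    have hc : 0 < Real.cos f := Real.cos_pos_of_mem_Ioo ⟨by linarith [Real.pi_pos], hf2⟩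
    rcases hqf with hqf | hqf
    · rw [hqf] at h8 h9
      have h1' : VxOf X j i v := ((vxx X hX).2.2.2.2.1 i j v h1).2.1
      obtain ⟨w, hw, hwl⟩ := nck X L hX hL hBel j i q' v q.1 f h1' h2 h4 h3 h5 h6 hα hα' hf0 hf2
        (by linarith [Real.pi_pos]) (by rw [itb_ipc, h7]) h8 h9
      refine ⟨j, i, q', v, w, h1', hw, Ne.symm h4, by rw [itb_ipc, h7], ?_, ?_⟩
      · rw [Real.cos_pi_div_two_sub, h8]
      · rw [eq_div_iff hc.ne', hwl]
    · rw [hqf] at h8 h9
      rw [sub_sub_cancel] at h9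
      obtain ⟨w, hw, hwl⟩ := nck X L hX hL hBel i j q' v q.1 f h1 h2 h3 h4 h5 h6 hα hα' hf0 hf2
        (by linarith [Real.pi_pos]) h7 h9 h8
      refine ⟨i, j, q', v, w, h1, hw, Ne.symm h3, h7, ?_, ?_⟩
      · rw [Real.cos_pi_div_two_sub, h9]
      · rw [eq_div_iff hc.ne', hwl]

end Pool.Agent.QUD.H27
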